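import Pool.Agent.H27.L1.H68.GHK.Targets
import Pool.Agent.H27.L1.H68.GHY.Targets2

/-!
Row GBP: the hybrid fourth moment over the spherical forms, with the Plancherel density.
-/

set_option autoImplicit false

namespace Pool.Agent.H27.L1.H46.GHK

open MeasureTheory Pool.Agent.H27.L1.H34.GM Pool.Agent.H27.L1.H34.GZ Pool.Agent.H27.L1.H34.GU Pool.Agent.H27.L1.H34.GA
  Pool.Agent.H27.L1.H68.GHY Pool.Agent.H27.L1.H34.GHY Pool.Agent.H27.L1.H68.GHK

lemma cusB_of_cuspU {m N : ℕ} [NeZero N] {T : ℕ → Finset (ZM m)} {F : Mat m → VN m N → ℂ}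
    {lam : ℕ → ℂ} {mu : Fin m → ℂ} (h : CuspU m N T F lam mu) : CusB m N T F lam where
  cont := h.cont
  supp := h.supp
  auto := h.auto
  scal := h.scal
  hecke := h.hecke
  bdd := h.bdd
  prim := h.prim
  cusp := h.cusp

lemma wt_pos {m : ℕ} (mu : Fin m → ℂ) : 0 < Wt mu := by
  unfold Wt
  refine Finset.prod_pos fun i _ => Finset.prod_pos fun j _ => ?_
  split_ifs
  · positivity
  · norm_num

lemma nz_of_norm {m N : ℕ} [NeZero N] {D : Set (V m)} (hm1 : 1 ≤ m) (hD : DomZ m D)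
    {F : Mat m → VN m N → ℂ} (h : nU D F = 1) : NZ F := by
  by_contra hn
  unfold NZ at hn
  push Not at hn
  have h0 : nU D F = 0 := by
    unfold nU
    refine Finset.sum_eq_zero fun x _ => ?_
    refine setIntegral_eq_zero_of_forall_eq_zero fun z hz => ?_
    have h1 : (mt z).det ≠ 0 := by
      intro h2
      have h3 := (hD.shell z hz).1
      have h4 : (1 : ℝ) / (m : ℝ) ≠ 0 := by
        have : (m : ℝ) ≠ 0 := by exact_mod_cast (show m ≠ 0 by omega)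
        positivity
      rw [aN, h2, abs_zero, Real.zero_rpow h4] at h3
      linarith
    rw [hn (mt z) x h1]
    simp
  rw [h0] at h
  norm_num at h

/-- the real parts are bounded -/
lemma re_bd {m : ℕ} (mu : Fin m → ℂ) (h0 : ∑ j, mu j = 0)
    (h1 : ∀ j, (mu j).re ≤ ((m : ℝ) - 1) / 2) (j : Fin m) : |(mu j).re| ≤ (m : ℝ) ^ 2 := by
  have hm : (1 : ℝ) ≤ m := by
    have : 1 ≤ m := Nat.one_le_iff_ne_zero.2 (by rintro rfl; exact j.elim0)
    exact_mod_cast this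
  have h2 : ∑ j, (mu j).re = 0 := by
    have := congrArg Complex.re h0
    rwa [Complex.re_sum, Complex.zero_re] at this
  have h3 : (mu j).re = -∑ i ∈ Finset.univ.erase j, (mu i).re := by
    have := Finset.add_sum_erase Finset.univ (fun i => (mu i).re) (Finset.mem_univ j)
    linarith
  have h4 : ∑ i ∈ Finset.univ.erase j, (mu i).re ≤ (m : ℝ) * (((m : ℝ) - 1) / 2) := by
    have := Finset.sum_le_card_nsmul (Finset.univ.erase j) (fun i => (mu i).re)
      (((m : ℝ) - 1) / 2) (fun i _ => h1 i)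
    refine this.trans ?_
    rw [nsmul_eq_mul]
    refine mul_le_mul_of_nonneg_right ?_ (by linarith)
    have h5 : (Finset.univ.erase j).card ≤ m := by
      refine (Finset.card_le_card (Finset.erase_subset _ _)).trans ?_
      simp
    exact_mod_cast h5
  rw [abs_le]
  constructor
  · nlinarith
  · have := h1 j
    nlinarith

theorem pf_GBP (hGBH : T_GBH) (hHKW : T_HKW) (hORS : T_ORS)
    (hSPL : Pool.Agent.H27.L1.H68.GHY.T_SPL) (hAPU : T_APU) : T_GBP := by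
  intro m hm ε hε
  obtain ⟨C1, hC1, hL⟩ := hSPL m hm
  obtain ⟨r, hr, hH⟩ := hHKW m hm
  obtain ⟨C2, hC2, hK⟩ := hH ((m : ℝ) ^ 2)
  obtain ⟨C3, hC3, hG⟩ := hGBH m hm r ε hr hε
  refine ⟨C2 * (C3 * C1 ^ ε * C1 ^ (m ^ 2)), by positivity, ?_⟩
  intro N _ T D hS P hP ι _ _ F lam mu hF hO
  have hor := hORS m N T D hS ι F lam mu (fun i => (hF i).1) hO
  have hW : ∀ i, Wt (mu i) ≤ C2 * (Hn r D (F i))⁻¹ := by
    intro i
    have hre := hAPU m N T (F i) (lam i) (mu i) hm (hF i).1.toEigU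
      (nz_of_norm hm hS.dom (hor.one i))
    obtain ⟨h1, h2⟩ := hK N T D hS (F i) (lam i) (mu i) (hF i).1 (hor.one i)
      (re_bd (mu i) (hF i).1.tr0 hre) (hF i).2.2
    have hw := wt_pos (mu i)
    rw [le_div_iff₀ hw] at h1
    rw [← div_eq_mul_inv, le_div_iff₀ h2]
    linarith [mul_comm (Wt (mu i)) (Hn r D (F i))]
  obtain ⟨L, hLi, hB⟩ := hG N T D hS (C1 * P) (by nlinarith) ι F lam (fun i =>
    ⟨cusB_of_cuspU (hF i).1, hL N T D hS (F i) (lam i) (mu i) (hF i).1.toEigU (hor.one i) P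
      (hF i).2.1⟩) hor
  refine ⟨L, hLi, fun J hJ hJP => ?_⟩
  have hb := hB J hJ (fun i t ht => (hJP i t ht).trans (by nlinarith))
  have h3 : ∑ i, Wt (mu i) * ∑ t ∈ J i, ‖L i (1 / 2 + t * Complex.I)‖ ^ 4 ≤
      C2 * ∑ i, (Hn r D (F i))⁻¹ * ∑ t ∈ J i, ‖L i (1 / 2 + t * Complex.I)‖ ^ 4 := by
    rw [Finset.mul_sum]
    refine Finset.sum_le_sum fun i _ => ?_
    rw [← mul_assoc]
    exact mul_le_mul_of_nonneg_right (hW i) (Finset.sum_nonneg fun t _ => by positivity)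
  refine h3.trans ?_
  have h4 : C3 * ((N : ℝ) * (C1 * P)) ^ ε * (N : ℝ) ^ m * (C1 * P) ^ (m ^ 2) =
      C3 * C1 ^ ε * C1 ^ (m ^ 2) * ((N : ℝ) * P) ^ ε * (N : ℝ) ^ m * P ^ (m ^ 2) := by
    rw [show (N : ℝ) * (C1 * P) = C1 * ((N : ℝ) * P) by ring,
      Real.mul_rpow (by linarith) (by positivity), mul_pow]
    ring
  calc C2 * ∑ i, (Hn r D (F i))⁻¹ * ∑ t ∈ J i, ‖L i (1 / 2 + t * Complex.I)‖ ^ 4
      ≤ C2 * (C3 * ((N : ℝ) * (C1 * P)) ^ ε * (N : ℝ) ^ m * (C1 * P) ^ (m ^ 2)) :=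
        mul_le_mul_of_nonneg_left hb hC2.le
    _ = _ := by rw [h4]; ring

end Pool.Agent.H27.L1.H46.GHK
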